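import Pool.Agent.Q201.CR.Tame

/-!
# The addition relation is tame
-/

set_option autoImplicit false

namespace Pool.Agent.Q201.CR

/-- columns of the convolution -/
def col {α : Type} (u v w : List α) (i : ℕ) : Option α × Option α × Option α :=
  (u[i]?, v[i]?, w[i]?)

theorem conv3_inj {α : Type} {u v w u' v' w' : List α} (h : conv3 u v w = conv3 u' v' w') :
    u = u' ∧ v = v' ∧ w = w' := by
  have hlen : max u.length (max v.length w.length) = max u'.length (max v'.length w'.length) := by
    have := congrArg List.length h
    simpa [conv3] using this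
  have key : ∀ i, col u v w i = col u' v' w' i := by
    intro i
    by_cases hi : i < max u.length (max v.length w.length)
    · have h1 : (conv3 u v w)[i]? = some (col u v w i) := by
        simp [conv3, col, List.getElem?_map, List.getElem?_range hi]
      have h2 : (conv3 u' v' w')[i]? = some (col u' v' w' i) := by
        rw [hlen] at hi
        simp [conv3, col, List.getElem?_map, List.getElem?_range hi]
      rw [h, h2] at h1
      exact (Option.some.inj h1).symm
    · have hi' : ¬ i < max u'.length (max v'.length w'.length) := by rwa [← hlen]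
      have a1 : u.length ≤ i := by omega
      have a2 : v.length ≤ i := by omega
      have a3 : w.length ≤ i := by omega
      have b1 : u'.length ≤ i := by omega
      have b2 : v'.length ≤ i := by omega
      have b3 : w'.length ≤ i := by omega
      simp [col, List.getElem?_eq_none a1, List.getElem?_eq_none a2, List.getElem?_eq_none a3,
        List.getElem?_eq_none b1, List.getElem?_eq_none b2, List.getElem?_eq_none b3]
  refine ⟨?_, ?_, ?_⟩
  · apply List.ext_getElem?
    intro i
    exact congrArg (fun p => p.1) (key i)
  · apply List.ext_getElem?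
    intro i
    exact congrArg (fun p => p.2.1) (key i)
  · apply List.ext_getElem?
    intro i
    exact congrArg (fun p => p.2.2) (key i)

open Classical in
/-- the run of an automaton over a stream of columns, blank columns being skipped -/
noncomputable def run {α σ : Type} (M : DFA (Option α × Option α × Option α) σ) (s : σ)
    (f : ℕ → Option α × Option α × Option α) : ℕ → σ
  | 0 => s
  | n + 1 => if f n = (none, none, none) then run M s f n else M.step (run M s f n) (f n)

open Classical in
theorem run_succ {α σ : Type} (M : DFA (Option α × Option α × Option α) σ) (s : σ)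
    (f : ℕ → Option α × Option α × Option α) (n : ℕ) : run M s f (n + 1) =
      if f n = (none, none, none) then run M s f n else M.step (run M s f n) (f n) := rfl

theorem run_conv {α σ : Type} (M : DFA (Option α × Option α × Option α) σ) (s : σ)
    (u v w : List α) : M.evalFrom s (conv3 u v w) =
      run M s (col u v w) (max u.length (max v.length w.length)) := by
  have key : ∀ k, k ≤ max u.length (max v.length w.length) →
      M.evalFrom s ((List.range k).map (col u v w)) = run M s (col u v w) k := by
    intro k
    induction k with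
    | zero => intro _; rfl
    | succ k ih =>
      intro hk
      rw [List.range_succ, List.map_append, List.map_singleton, DFA.evalFrom_append_singleton,
        ih (by omega), run_succ, if_neg]
      intro h
      have h1 : u[k]? = none := congrArg (fun p => p.1) h
      have h2 : v[k]? = none := congrArg (fun p => p.2.1) h
      have h3 : w[k]? = none := congrArg (fun p => p.2.2) h
      rw [List.getElem?_eq_none_iff] at h1 h2 h3
      omega
  exact key _ le_rfl

theorem run_stable {α σ : Type} (M : DFA (Option α × Option α × Option α) σ) (s : σ)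
    (u v w : List α) (k : ℕ) : run M s (col u v w) (max u.length (max v.length w.length) + k) =
      run M s (col u v w) (max u.length (max v.length w.length)) := by
  induction k with
  | zero => rfl
  | succ k ih =>
    rw [← Nat.add_assoc, run_succ, if_pos]
    · exact ih
    · have a1 : u.length ≤ max u.length (max v.length w.length) + k := by omega
      have a2 : v.length ≤ max u.length (max v.length w.length) + k := by omega
      have a3 : w.length ≤ max u.length (max v.length w.length) + k := by omega
      simp only [col, List.getElem?_eq_none a1, List.getElem?_eq_none a2,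
        List.getElem?_eq_none a3]

theorem run_ge {α σ : Type} (M : DFA (Option α × Option α × Option α) σ) (s : σ)
    (u v w : List α) {k : ℕ} (hk : max u.length (max v.length w.length) ≤ k) :
    run M s (col u v w) k = M.evalFrom s (conv3 u v w) := by
  obtain ⟨j, rfl⟩ := Nat.exists_eq_add_of_le hk
  rw [run_stable, run_conv]

theorem run_congr {α σ : Type} (M : DFA (Option α × Option α × Option α) σ) (s : σ)
    {f g : ℕ → Option α × Option α × Option α} (n : ℕ) (h : ∀ i < n, f i = g i) :
    run M s f n = run M s g n := by
  induction n with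
  | zero => rfl
  | succ n ih =>
    rw [run_succ, run_succ, h n (by omega), ih fun i hi => h i (by omega)]

theorem run_add {α σ : Type} (M : DFA (Option α × Option α × Option α) σ) (s : σ)
    (f : ℕ → Option α × Option α × Option α) (n m : ℕ) :
    run M s f (n + m) = run M (run M s f n) (fun i => f (n + i)) m := by
  induction m with
  | zero => rfl
  | succ m ih =>
    rw [← Nat.add_assoc, run_succ, run_succ, ih]

/-- a valid splitting of `u ++ v` at position `n` -/
def Sp {α : Type} (n : ℕ) (u v : List α) : Prop := u.length = n ∨ (u.length ≤ n ∧ v = [])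

theorem Sp.le {α : Type} {n : ℕ} {u v : List α} (h : Sp n u v) : u.length ≤ n := by
  rcases h with h | h
  · exact h.le
  · exact h.1

theorem Sp.take {α : Type} {n : ℕ} {u v : List α} (h : Sp n u v) : (u ++ v).take n = u := by
  rcases h with h | ⟨h, rfl⟩
  · subst h
    simp
  · simp [List.take_of_length_le h]

theorem Sp.drop {α : Type} {n : ℕ} {u v : List α} (h : Sp n u v) : (u ++ v).drop n = v := by
  rcases h with h | ⟨h, rfl⟩
  · subst h
    simp
  · simp [List.drop_eq_nil_of_le h]

theorem sp_self {α : Type} (n : ℕ) (z : List α) : Sp n (z.take n) (z.drop n) := by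
  by_cases h : n ≤ z.length
  · left
    rw [List.length_take]
    omega
  · right
    exact ⟨by rw [List.length_take]; omega, List.drop_eq_nil_of_le (by omega)⟩

theorem Sp.lt {α : Type} {n i : ℕ} {u v : List α} (h : Sp n u v) (hi : i < n) :
    (u ++ v)[i]? = u[i]? := by
  rcases h with h | ⟨h, rfl⟩
  · exact List.getElem?_append_left (by omega)
  · rw [List.append_nil]

theorem Sp.ge {α : Type} {n : ℕ} {u v : List α} (h : Sp n u v) (i : ℕ) :
    (u ++ v)[n + i]? = v[i]? := by
  rcases h with h | ⟨h, rfl⟩
  · rw [List.getElem?_append_right (by omega)]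
    congr 1
    omega
  · rw [List.append_nil, List.getElem?_eq_none (by omega)]
    simp

theorem tame_sp {α : Type} : Tame fun (x : ℕ × List α) (v : List α) => Sp x.1 x.2 v :=
  Tame.of_factor (T := Prop × Prop) (fun x => (x.2.length = x.1, x.2.length ≤ x.1))
    (fun t v => t.1 ∨ (t.2 ∧ v = [])) fun _ _ => Iff.rfl

variable (P : Presentation)

/-- the addition relation on strings -/
def Presentation.R (u v w : List P.α) : Prop :=
  u ∈ P.L ∧ v ∈ P.L ∧ w ∈ P.L ∧ P.ψ u + P.ψ v = P.ψ w

/-- the sections of the addition relation -/
def Presentation.F3 (x : ℕ × List P.α × List P.α × List P.α)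
    (y : List P.α × List P.α × List P.α) : Prop :=
  Sp x.1 x.2.1 y.1 ∧ Sp x.1 x.2.2.1 y.2.1 ∧ Sp x.1 x.2.2.2 y.2.2 ∧
    P.R (x.2.1 ++ y.1) (x.2.2.1 ++ y.2.1) (x.2.2.2 ++ y.2.2)

theorem Presentation.tame_F3 : Tame P.F3 := by
  obtain ⟨σ, hσ, M, hM⟩ := P.regAdd
  have hM' : ∀ u v w, P.R u v w ↔ M.evalFrom M.start (conv3 u v w) ∈ M.accept := by
    intro u v w
    have h1 : conv3 u v w ∈ M.accepts ↔ M.evalFrom M.start (conv3 u v w) ∈ M.accept := Iff.rfl
    rw [← h1, hM]
    constructor
    · intro h
      exact ⟨u, v, w, h.1, h.2.1, h.2.2.1, h.2.2.2, rfl⟩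
    · rintro ⟨u', v', w', a1, a2, a3, a4, a5⟩
      obtain ⟨rfl, rfl, rfl⟩ := conv3_inj a5
      exact ⟨a1, a2, a3, a4⟩
  have h1 : Tame fun (x : ℕ × List P.α × List P.α × List P.α)
      (y : List P.α × List P.α × List P.α) => Sp x.1 x.2.1 y.1 :=
    (tame_sp.left fun x : ℕ × List P.α × List P.α × List P.α => (x.1, x.2.1)).right
      fun y : List P.α × List P.α × List P.α => y.1
  have h2 : Tame fun (x : ℕ × List P.α × List P.α × List P.α)
      (y : List P.α × List P.α × List P.α) => Sp x.1 x.2.2.1 y.2.1 :=
    (tame_sp.left fun x : ℕ × List P.α × List P.α × List P.α => (x.1, x.2.2.1)).right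
      fun y : List P.α × List P.α × List P.α => y.2.1
  have h3 : Tame fun (x : ℕ × List P.α × List P.α × List P.α)
      (y : List P.α × List P.α × List P.α) => Sp x.1 x.2.2.2 y.2.2 :=
    (tame_sp.left fun x : ℕ × List P.α × List P.α × List P.α => (x.1, x.2.2.2)).right
      fun y : List P.α × List P.α × List P.α => y.2.2
  have h4 : Tame fun (x : ℕ × List P.α × List P.α × List P.α)
      (y : List P.α × List P.α × List P.α) =>
        M.evalFrom (run M M.start (col x.2.1 x.2.2.1 x.2.2.2) x.1) (conv3 y.1 y.2.1 y.2.2) ∈
          M.accept :=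
    haveI : Finite σ := Finite.of_fintype σ
    Tame.of_factor (T := σ) (fun x => run M M.start (col x.2.1 x.2.2.1 x.2.2.2) x.1)
      (fun q y => M.evalFrom q (conv3 y.1 y.2.1 y.2.2) ∈ M.accept) fun _ _ => Iff.rfl
  refine ((h1.and (h2.and h3)).and h4).congr ?_
  rintro ⟨n, u1, u2, u3⟩ ⟨v1, v2, v3⟩
  simp only [Presentation.F3]
  constructor
  · rintro ⟨s1, s2, s3, h⟩
    refine ⟨⟨s1, s2, s3⟩, ?_⟩
    rw [hM', ← run_ge M M.start _ _ _ (k := n + ((u1 ++ v1).length + (u2 ++ v2).length +
      (u3 ++ v3).length + v1.length + v2.length + v3.length)) (by omega), run_add,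
      run_congr M M.start (g := col u1 u2 u3) n] at h
    · have e : (fun i => col (u1 ++ v1) (u2 ++ v2) (u3 ++ v3) (n + i)) = col v1 v2 v3 := by
        funext i
        simp only [col, s1.ge, s2.ge, s3.ge]
      rw [e, run_ge M _ _ _ _ (by omega)] at h
      exact h
    · intro i hi
      simp only [col, s1.lt hi, s2.lt hi, s3.lt hi]
  · rintro ⟨⟨s1, s2, s3⟩, h⟩
    refine ⟨s1, s2, s3, ?_⟩
    rw [hM', ← run_ge M M.start _ _ _ (k := n + ((u1 ++ v1).length + (u2 ++ v2).length +
      (u3 ++ v3).length + v1.length + v2.length + v3.length)) (by omega), run_add,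
      run_congr M M.start (g := col u1 u2 u3) n]
    · have e : (fun i => col (u1 ++ v1) (u2 ++ v2) (u3 ++ v3) (n + i)) = col v1 v2 v3 := by
        funext i
        simp only [col, s1.ge, s2.ge, s3.ge]
      rw [e, run_ge M _ _ _ _ (by omega)]
      exact h
    · intro i hi
      simp only [col, s1.lt hi, s2.lt hi, s3.lt hi]

end Pool.Agent.Q201.CR
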