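import Pool.Agent.Q201.CR.Points

/-!
# Bounds for the cells of a scale
-/

set_option autoImplicit false

namespace Pool.Agent.Q201.CR

/-- short witnesses -/
theorem Tame.short {X β : Type} {S : X → List β → Prop} (h : Tame S) :
    ∃ D, ∀ x, (∃ v, S x v) → ∃ v, S x v ∧ v.length ≤ D := by
  classical
  let ℓ : (List β → Prop) → ℕ := fun f => if hf : ∃ v, f v then hf.choose.length else 0
  obtain ⟨D, hD⟩ := (h.image ℓ).bddAbove
  refine ⟨D, fun x hx => ⟨hx.choose, hx.choose_spec, ?_⟩⟩
  have h1 : ℓ (S x) ≤ D := hD ⟨S x, ⟨x, rfl⟩, rfl⟩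
  have h2 : ℓ (S x) = hx.choose.length := dif_pos hx
  rwa [h2] at h1

variable (P : Presentation)

/-- sums of numbers with short strings have short strings -/
theorem Presentation.exists_add : ∃ D, ∀ n x y, x ∈ P.A n → y ∈ P.A n → x + y ∈ P.A (n + D) := by
  obtain ⟨D, hD⟩ := (P.tame_F3.right fun v : List P.α => ([], [], v)).short
  refine ⟨D, fun n x y hx hy => ?_⟩
  have hx' : Sp n (P.can x) [] := Or.inr ⟨hx, rfl⟩
  have hy' : Sp n (P.can y) [] := Or.inr ⟨hy, rfl⟩
  obtain ⟨v, hv, hv'⟩ := hD (n, P.can x, P.can y, P.pr n (x + y)) ⟨P.tl n (x + y), hx', hy',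
    P.sp n (x + y), by
      simp only [Presentation.R, List.append_nil, P.pr_tl]
      exact ⟨P.can_mem x, P.can_mem y, P.can_mem _, by rw [P.psi_can, P.psi_can, P.psi_can]⟩⟩
  obtain ⟨-, -, s, h⟩ := hv
  simp only [Presentation.R, List.append_nil] at h s
  obtain ⟨-, -, h1, h2⟩ := h
  rw [P.psi_can, P.psi_can] at h2
  rw [P.mem_A]
  refine ⟨_, h1, ?_, h2.symm⟩
  rw [List.length_append]
  have := s.le
  omega

/-- the numbers with a given tail -/
def Presentation.Cell (n : ℕ) (v : List P.α) : Set ℤ := {x | P.tl n x = v}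

theorem Presentation.code_pr_lt (n : ℕ) (x : ℤ) : code (P.pr n x) < base P.α ^ n :=
  lt_of_lt_of_le (code_lt _) (Nat.pow_le_pow_right (base_pos _) (P.sp n x).le)

theorem Presentation.cell_inj {n : ℕ} {v : List P.α} :
    Set.InjOn (fun x => code (P.pr n x)) (P.Cell n v) := by
  intro x hx y hy h
  exact P.pt_inj (code_inj h) ((show P.tl n x = v from hx).trans (show P.tl n y = v from hy).symm)

theorem Presentation.cell_finite (n : ℕ) (v : List P.α) : (P.Cell n v).Finite :=
  Set.Finite.of_injOn (t := (Finset.range (base P.α ^ n) : Set ℕ))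
    (fun x _ => Finset.mem_coe.2 (Finset.mem_range.2 (P.code_pr_lt n x))) P.cell_inj
    (Finset.finite_toSet _)

/-- the cell as a finset -/
noncomputable def Presentation.cell (n : ℕ) (v : List P.α) : Finset ℤ :=
  (P.cell_finite n v).toFinset

theorem Presentation.mem_cell {n : ℕ} {v : List P.α} {x : ℤ} : x ∈ P.cell n v ↔ P.tl n x = v := by
  unfold Presentation.cell
  rw [Set.Finite.mem_toFinset]
  rfl

/-- the short numbers as a finset -/
noncomputable def Presentation.Af (n : ℕ) : Finset ℤ := (P.A_finite n).toFinset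

theorem Presentation.mem_Af {n : ℕ} {x : ℤ} : x ∈ P.Af n ↔ x ∈ P.A n := by
  unfold Presentation.Af
  rw [Set.Finite.mem_toFinset]

theorem Presentation.card_cell (n : ℕ) (v : List P.α) : (P.cell n v).card ≤ base P.α ^ n := by
  calc (P.cell n v).card ≤ (Finset.range (base P.α ^ n)).card := by
        refine Finset.card_le_card_of_injOn (fun x => code (P.pr n x)) ?_ ?_
        · intro x _
          exact Finset.mem_coe.2 (Finset.mem_range.2 (P.code_pr_lt n x))
        · intro x hx y hy h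
          exact P.cell_inj (P.mem_cell.1 hx) (P.mem_cell.1 hy) h
    _ = base P.α ^ n := Finset.card_range _

theorem Presentation.exists_cell_le : ∃ D B : ℕ, ∀ n v, D ≤ n →
    (P.cell n v).card ≤ B * (P.Af n).card := by
  obtain ⟨D, hD⟩ := P.tame_Pt.short
  have hD' : ∀ n x, ∃ y, P.pr n y = P.pr n x ∧ (P.tl n y).length ≤ D := by
    intro n x
    obtain ⟨v, ⟨y, h1, h2⟩, hv'⟩ := hD (n, P.pr n x) ⟨P.tl n x, x, rfl, rfl⟩
    simp only at h1 h2
    exact ⟨y, h1, by rwa [h2]⟩
  choose φ hφ1 hφ2 using hD'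
  have hφA : ∀ n x, φ n x ∈ P.A (n + D) := by
    intro n x
    show (P.can (φ n x)).length ≤ n + D
    rw [← P.pr_tl n, List.length_append]
    have := (P.sp n (φ n x)).le
    have := hφ2 n x
    omega
  refine ⟨D, base P.α ^ (2 * D), fun n v hn => ?_⟩
  have h1 : (P.cell n v).card ≤ (P.Af (n + D)).card := by
    refine Finset.card_le_card_of_injOn (φ n) ?_ ?_
    · intro x _
      exact P.mem_Af.2 (hφA n x)
    · intro x hx y hy h
      have e1 : P.pr n x = P.pr n y := by rw [← hφ1 n x, ← hφ1 n y, h]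
      exact P.pt_inj e1 ((P.mem_cell.1 hx).trans (P.mem_cell.1 hy).symm)
  have h2 : (P.Af (n + D)).card ≤ (P.Af n ×ˢ Finset.range (base P.α ^ (2 * D))).card := by
    refine Finset.card_le_card_of_injOn (fun x => (φ (n - D) x, code (P.tl (n - D) x))) ?_ ?_
    · intro x hx
      refine Finset.mem_coe.2 (Finset.mem_product.2 ⟨P.mem_Af.2 ?_, Finset.mem_range.2 ?_⟩)
      · have := hφA (n - D) x
        rwa [Nat.sub_add_cancel hn] at this
      · have hx' : (P.can x).length ≤ n + D := P.mem_Af.1 hx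
        refine lt_of_lt_of_le (code_lt _) (Nat.pow_le_pow_right (base_pos _) ?_)
        unfold Presentation.tl
        rw [List.length_drop]
        omega
    · intro x _ y _ h
      simp only [Prod.mk.injEq] at h
      have e1 : P.pr (n - D) x = P.pr (n - D) y := by
        rw [← hφ1 (n - D) x, ← hφ1 (n - D) y, h.1]
      exact P.pt_inj e1 (code_inj h.2)
  rw [Finset.card_product, Finset.card_range] at h2
  calc (P.cell n v).card ≤ (P.Af n).card * base P.α ^ (2 * D) := h1.trans h2
    _ = base P.α ^ (2 * D) * (P.Af n).card := Nat.mul_comm _ _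

/-- the tails reached from a tail in one step -/
def Presentation.Nb (n : ℕ) (v : List P.α) : Set (List P.α) :=
  {v' | ∃ x y, P.tl n x = v ∧ P.tl n y = v' ∧ P.Ad n x y}

theorem Presentation.W_unique {n : ℕ} {w u u' v a b : List P.α}
    (ha : P.W (n, w, u, u') (v, a)) (hb : P.W (n, w, u, u') (v, b)) : a = b := by
  obtain ⟨-, ⟨y, a1, a2⟩, -, -, s1, -, -, h3, h4⟩ := ha
  obtain ⟨-, ⟨y', b1, b2⟩, -, -, s2, -, -, h5, h6⟩ := hb
  simp only at a1 a2 b1 b2 h3 h4 h5 h6
  have e1 : P.ψ (u' ++ a) = y := by rw [← a1, ← a2, P.pr_tl, P.psi_can]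
  have e2 : P.ψ (u' ++ b) = y' := by rw [← b1, ← b2, P.pr_tl, P.psi_can]
  rw [e1] at h4
  rw [e2] at h6
  have : y = y' := h4.symm.trans h6
  rw [← a2, ← b2, this]

theorem Presentation.exists_nb : ∃ κ : ℕ, ∀ n v, ∃ N : Finset (List P.α), N.card ≤ κ ∧
    ∀ v' ∈ P.Nb n v, v' ∈ N := by
  classical
  refine ⟨(Set.Finite.toFinset P.tame_W).card, fun n v => ?_⟩
  have h1 : ∀ v', ∃ p : List P.α × List P.α × List P.α,
      v' ∈ P.Nb n v → P.W (n, p.1, p.2.1, p.2.2) (v, v') := by
    intro v'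
    by_cases h : v' ∈ P.Nb n v
    · obtain ⟨x, y, rfl, rfl, h⟩ := h
      obtain ⟨w, hw⟩ := P.Ad_iff.1 h
      exact ⟨(w, P.pr n x, P.pr n y), fun _ => hw⟩
    · exact ⟨([], [], []), fun h' => absurd h' h⟩
  choose p hp using h1
  let f : List P.α → (List P.α × List P.α → Prop) := fun v' =>
    P.W (n, (p v').1, (p v').2.1, (p v').2.2)
  have hinj : Set.InjOn f (P.Nb n v) := by
    intro a ha b hb hab
    have ha' := hp a ha
    have hb' : P.W (n, (p a).1, (p a).2.1, (p a).2.2) (v, b) := by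
      have : f a (v, b) := by
        rw [hab]
        exact hp b hb
      exact this
    exact P.W_unique ha' hb'
  have hmaps : Set.MapsTo f (P.Nb n v) (Set.range P.W) := fun a _ => ⟨_, rfl⟩
  have hfin : (P.Nb n v).Finite := Set.Finite.of_injOn hmaps hinj P.tame_W
  refine ⟨hfin.toFinset, ?_, fun v' hv' => (Set.Finite.mem_toFinset _).2 hv'⟩
  refine Finset.card_le_card_of_injOn f ?_ ?_
  · intro a ha
    rw [Finset.mem_coe, Set.Finite.mem_toFinset] at ha
    exact Finset.mem_coe.2 ((Set.Finite.mem_toFinset _).2 (hmaps ha))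
  · intro a ha b hb
    rw [Finset.mem_coe, Set.Finite.mem_toFinset] at ha hb
    exact hinj ha hb

/-- a cell contains a bounded number of pairwise non-close points -/
theorem Presentation.exists_sep : ∃ n₀ K₀ : ℕ, ∀ n, n₀ ≤ n → (P.A n).Nonempty ∧
    ∀ v, ∀ K : Finset ℤ, (∀ x ∈ K, P.tl n x = v) → (∀ x ∈ K, ∀ y ∈ K, x ≠ y → ¬ P.Cl n x y) →
      K.card ≤ K₀ := by
  classical
  obtain ⟨D, B, hB⟩ := P.exists_cell_le
  obtain ⟨κ, hκ⟩ := P.exists_nb
  obtain ⟨m, hm⟩ := P.exists_mem_A 0
  refine ⟨D + m, κ * B, fun n hn => ?_⟩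
  have hne : (P.A n).Nonempty := ⟨0, P.A_mono (by omega) hm⟩
  refine ⟨hne, fun v K hK hK' => ?_⟩
  have hpos : 0 < (P.Af n).card := by
    obtain ⟨a, ha⟩ := hne
    exact Finset.card_pos.2 ⟨a, P.mem_Af.2 ha⟩
  obtain ⟨N, hN, hN'⟩ := hκ n v
  have h1 : (K ×ˢ P.Af n).card ≤ (N.biUnion fun v' => P.cell n v').card := by
    refine Finset.card_le_card_of_injOn (fun p => p.1 + p.2) ?_ ?_
    · rintro ⟨x, a⟩ hxa
      obtain ⟨hx, ha⟩ := Finset.mem_product.1 (Finset.mem_coe.1 hxa)
      refine Finset.mem_coe.2 (Finset.mem_biUnion.2 ⟨P.tl n (x + a), hN' _ ?_, P.mem_cell.2 rfl⟩)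
      refine ⟨x, x + a, hK x hx, rfl, ?_⟩
      unfold Presentation.Ad
      have : x + a - x = a := by ring
      rw [this]
      exact P.mem_Af.1 ha
    · rintro ⟨x, a⟩ hxa ⟨y, b⟩ hyb h
      obtain ⟨hx, ha⟩ := Finset.mem_product.1 (Finset.mem_coe.1 hxa)
      obtain ⟨hy, hb⟩ := Finset.mem_product.1 (Finset.mem_coe.1 hyb)
      simp only at h hx hy ha hb
      by_cases hxy : x = y
      · subst hxy
        have : a = b := by omega
        rw [this]
      · exfalso
        refine hK' x hx y hy hxy ⟨x + a, ?_, ?_⟩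
        · unfold Presentation.Ad
          have : x + a - x = a := by ring
          rw [this]
          exact P.mem_Af.1 ha
        · unfold Presentation.Ad
          have : x + a - y = b := by omega
          rw [this]
          exact P.mem_Af.1 hb
  have h2 : (N.biUnion fun v' => P.cell n v').card ≤ N.card * (B * (P.Af n).card) :=
    Finset.card_biUnion_le_card_mul _ _ _ fun v' _ => hB n v' (by omega)
  rw [Finset.card_product] at h1
  have h3 : K.card * (P.Af n).card ≤ κ * B * (P.Af n).card := by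
    calc K.card * (P.Af n).card ≤ N.card * (B * (P.Af n).card) := h1.trans h2
      _ ≤ κ * (B * (P.Af n).card) := Nat.mul_le_mul_right _ hN
      _ = κ * B * (P.Af n).card := by ring
  exact Nat.le_of_mul_le_mul_right h3 hpos

end Pool.Agent.Q201.CR
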