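import Pool.Agent.Q201.CR.Auto

/-!
# Codes of strings and canonical strings
-/

set_option autoImplicit false

namespace Pool.Agent.Q201.CR

/-- base -/
noncomputable def base (α : Type) : ℕ := Nat.card α + 2

/-- digits -/
noncomputable def dig {α : Type} [Finite α] (a : α) : ℕ := (Finite.equivFin α a : ℕ) + 1

theorem dig_lt {α : Type} [Finite α] (a : α) : dig a < base α := by
  have := (Finite.equivFin α a).2
  unfold dig base
  omega

theorem dig_inj {α : Type} [Finite α] {a b : α} (h : dig a = dig b) : a = b := by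
  unfold dig at h
  exact (Finite.equivFin α).injective (Fin.ext (by omega))

/-- the code of a string, least significant digit first -/
noncomputable def code {α : Type} [Finite α] : List α → ℕ
  | [] => 0
  | a :: z => dig a + base α * code z

theorem code_nil {α : Type} [Finite α] : code ([] : List α) = 0 := rfl

theorem code_cons {α : Type} [Finite α] (a : α) (z : List α) :
    code (a :: z) = dig a + base α * code z := rfl

theorem base_pos (α : Type) : 0 < base α := by unfold base; omega

theorem code_append {α : Type} [Finite α] (u v : List α) :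
    code (u ++ v) = code u + base α ^ u.length * code v := by
  induction u with
  | nil => simp [code_nil]
  | cons a u ih =>
    rw [List.cons_append, code_cons, code_cons, ih, List.length_cons, pow_succ]
    ring

theorem code_lt {α : Type} [Finite α] (u : List α) : code u < base α ^ u.length := by
  induction u with
  | nil => simp [code_nil]
  | cons a u ih =>
    rw [code_cons, List.length_cons, pow_succ]
    have h1 := dig_lt a
    have h2 : base α * code u + base α ≤ base α ^ u.length * base α := by
      calc base α * code u + base α = (code u + 1) * base α := by ring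
        _ ≤ base α ^ u.length * base α := Nat.mul_le_mul_right _ ih
    omega

theorem le_code {α : Type} [Finite α] (a : α) (u : List α) :
    base α ^ u.length ≤ code (a :: u) := by
  induction u generalizing a with
  | nil =>
    rw [code_cons, code_nil]
    unfold dig
    simp
  | cons b u ih =>
    rw [code_cons, List.length_cons, pow_succ]
    have := Nat.mul_le_mul_left (base α) (ih b)
    calc base α ^ u.length * base α = base α * base α ^ u.length := by ring
      _ ≤ base α * code (b :: u) := this
      _ ≤ dig a + base α * code (b :: u) := Nat.le_add_left _ _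

theorem code_len {α : Type} [Finite α] {u v : List α} (h : u.length < v.length) :
    code u < code v := by
  cases v with
  | nil => simp at h
  | cons a v =>
    refine lt_of_lt_of_le (code_lt u) (le_trans ?_ (le_code a v))
    exact Nat.pow_le_pow_right (base_pos α) (by rw [List.length_cons] at h; omega)

theorem code_inj {α : Type} [Finite α] : ∀ {u v : List α}, code u = code v → u = v := by
  intro u
  induction u with
  | nil =>
    intro v h
    cases v with
    | nil => rfl
    | cons b v =>
      have := code_len (u := ([] : List α)) (v := b :: v) (by simp)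
      omega
  | cons a u ih =>
    intro v h
    cases v with
    | nil =>
      have := code_len (u := ([] : List α)) (v := a :: u) (by simp)
      omega
    | cons b v =>
      rw [code_cons, code_cons] at h
      have h1 : dig a = dig b := by
        have e1 : (dig a + base α * code u) % base α = dig a := by
          rw [Nat.add_mul_mod_self_left, Nat.mod_eq_of_lt (dig_lt a)]
        have e2 : (dig b + base α * code v) % base α = dig b := by
          rw [Nat.add_mul_mod_self_left, Nat.mod_eq_of_lt (dig_lt b)]
        rw [← e1, ← e2, h]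
      have h2 : code u = code v := by
        have : base α * code u = base α * code v := by omega
        exact Nat.eq_of_mul_eq_mul_left (base_pos α) this
      rw [dig_inj h1, ih h2]

theorem Sp.code {α : Type} [Finite α] {n : ℕ} {u v : List α} (h : Sp n u v) :
    CR.code (u ++ v) = CR.code u + base α ^ n * CR.code v := by
  rw [code_append]
  rcases h with h | ⟨h, rfl⟩
  · rw [h]
  · simp [code_nil]

theorem Sp.code_le {α : Type} [Finite α] {n : ℕ} {u v u' v' : List α} (h : Sp n u v)
    (h' : Sp n u' v') : CR.code (u ++ v) ≤ CR.code (u' ++ v') ↔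
      (CR.code v < CR.code v' ∨ (CR.code v = CR.code v' ∧ CR.code u ≤ CR.code u')) := by
  rw [h.code, h'.code]
  have h1 : CR.code u < base α ^ n :=
    lt_of_lt_of_le (code_lt u) (Nat.pow_le_pow_right (base_pos α) h.le)
  have h2 : CR.code u' < base α ^ n :=
    lt_of_lt_of_le (code_lt u') (Nat.pow_le_pow_right (base_pos α) h'.le)
  rcases lt_trichotomy (CR.code v) (CR.code v') with h3 | h3 | h3
  · have : base α ^ n * (CR.code v + 1) ≤ base α ^ n * CR.code v' := Nat.mul_le_mul_left _ h3
    rw [Nat.mul_add, Nat.mul_one] at this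
    exact ⟨fun _ => Or.inl h3, fun _ => by omega⟩
  · rw [h3]
    constructor
    · intro h4
      exact Or.inr ⟨rfl, by omega⟩
    · rintro (h4 | h4)
      · omega
      · omega
  · have : base α ^ n * (CR.code v' + 1) ≤ base α ^ n * CR.code v := Nat.mul_le_mul_left _ h3
    rw [Nat.mul_add, Nat.mul_one] at this
    constructor
    · intro h4
      omega
    · rintro (h4 | h4)
      · omega
      · omega

variable (P : Presentation)

instance : Finite P.α := P.fin

theorem Presentation.exists_can (x : ℤ) : ∃ z, z ∈ P.L ∧ P.ψ z = x ∧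
    ∀ z', z' ∈ P.L → P.ψ z' = x → code z ≤ code z' := by
  obtain ⟨w, hw, hw'⟩ := P.surj x
  obtain ⟨z, ⟨hz1, hz2⟩, hz3⟩ := (measure (code : List P.α → ℕ)).wf.has_min
    {z | z ∈ P.L ∧ P.ψ z = x} ⟨w, hw, hw'⟩
  refine ⟨z, hz1, hz2, fun z' h1 h2 => ?_⟩
  have := hz3 z' ⟨h1, h2⟩
  exact not_lt.1 this

/-- the canonical string of an integer -/
noncomputable def Presentation.can (x : ℤ) : List P.α := (P.exists_can x).choose

theorem Presentation.can_mem (x : ℤ) : P.can x ∈ P.L := (P.exists_can x).choose_spec.1

theorem Presentation.psi_can (x : ℤ) : P.ψ (P.can x) = x := (P.exists_can x).choose_spec.2.1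

theorem Presentation.can_min (x : ℤ) {z : List P.α} (h : z ∈ P.L) (h' : P.ψ z = x) :
    code (P.can x) ≤ code z := (P.exists_can x).choose_spec.2.2 z h h'

theorem Presentation.can_inj {x y : ℤ} (h : P.can x = P.can y) : x = y := by
  rw [← P.psi_can x, ← P.psi_can y, h]

theorem Presentation.eq_can {z : List P.α} (h : z ∈ P.L)
    (h' : ∀ z', z' ∈ P.L → P.ψ z' = P.ψ z → code z ≤ code z') : P.can (P.ψ z) = z := by
  apply code_inj
  exact le_antisymm (P.can_min _ h rfl) (h' _ (P.can_mem _) (P.psi_can _))

theorem Presentation.can_length {z : List P.α} (h : z ∈ P.L) :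
    (P.can (P.ψ z)).length ≤ z.length := by
  by_contra hlt
  have := code_len (not_le.1 hlt)
  have := P.can_min _ h rfl
  omega

/-- the integers with a string of length at most `n` -/
def Presentation.A (n : ℕ) : Set ℤ := {a | (P.can a).length ≤ n}

theorem Presentation.mem_A {n : ℕ} {a : ℤ} :
    a ∈ P.A n ↔ ∃ w, w ∈ P.L ∧ w.length ≤ n ∧ P.ψ w = a := by
  constructor
  · intro h
    exact ⟨P.can a, P.can_mem a, h, P.psi_can a⟩
  · rintro ⟨w, h1, h2, rfl⟩
    exact le_trans (P.can_length h1) h2

theorem Presentation.A_mono {m n : ℕ} (h : m ≤ n) : P.A m ⊆ P.A n :=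
  fun _ ha => le_trans (show _ ≤ m from ha) h

theorem Presentation.A_finite (n : ℕ) : (P.A n).Finite := by
  have h1 : {l : List P.α | l.length ≤ n}.Finite := List.finite_length_le P.α n
  refine (h1.image P.ψ).subset fun a ha => ⟨P.can a, ha, P.psi_can a⟩

theorem Presentation.exists_mem_A (x : ℤ) : ∃ n, x ∈ P.A n :=
  ⟨(P.can x).length, show (P.can x).length ≤ (P.can x).length from le_rfl⟩

/-- the first part of the canonical string -/
noncomputable def Presentation.pr (n : ℕ) (x : ℤ) : List P.α := (P.can x).take n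

/-- the second part of the canonical string -/
noncomputable def Presentation.tl (n : ℕ) (x : ℤ) : List P.α := (P.can x).drop n

theorem Presentation.pr_tl (n : ℕ) (x : ℤ) : P.pr n x ++ P.tl n x = P.can x :=
  List.take_append_drop _ _

theorem Presentation.sp (n : ℕ) (x : ℤ) : Sp n (P.pr n x) (P.tl n x) := sp_self _ _

theorem Presentation.pt_inj {n : ℕ} {x y : ℤ} (h1 : P.pr n x = P.pr n y)
    (h2 : P.tl n x = P.tl n y) : x = y := by
  apply P.can_inj
  rw [← P.pr_tl n x, ← P.pr_tl n y, h1, h2]

/-- points at scale `n` -/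
def Presentation.Pt (p : ℕ × List P.α) (v : List P.α) : Prop :=
  ∃ x, P.pr p.1 x = p.2 ∧ P.tl p.1 x = v

theorem Presentation.Pt.sp {P : Presentation} {n : ℕ} {u v : List P.α} (h : P.Pt (n, u) v) :
    Sp n u v := by
  obtain ⟨x, h1, h2⟩ := h
  simp only at h1 h2
  rw [← h1, ← h2]
  exact P.sp n x

/-- equality of the numbers of two strings -/
def Presentation.Eq0 (x : ℕ × List P.α × List P.α) (y : List P.α × List P.α) : Prop :=
  Sp x.1 x.2.1 y.1 ∧ Sp x.1 x.2.2 y.2 ∧ x.2.1 ++ y.1 ∈ P.L ∧ x.2.2 ++ y.2 ∈ P.L ∧
    P.ψ (x.2.1 ++ y.1) = P.ψ (x.2.2 ++ y.2)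

theorem Presentation.tame_Eq0 : Tame P.Eq0 := by
  have h1 : Tame fun (x : (ℕ × List P.α × List P.α) × List P.α)
      (y : (List P.α × List P.α) × List P.α) =>
        P.F3 (x.1.1, x.2, x.1.2.1, x.1.2.2) (y.2, y.1.1, y.1.2) ∧
          P.F3 (x.1.1, x.2, x.2, x.2) (y.2, y.2, y.2) :=
    ((P.tame_F3.left fun x : (ℕ × List P.α × List P.α) × List P.α =>
        (x.1.1, x.2, x.1.2.1, x.1.2.2)).right fun y : (List P.α × List P.α) × List P.α =>
          (y.2, y.1.1, y.1.2)).and
    ((P.tame_F3.left fun x : (ℕ × List P.α × List P.α) × List P.α =>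
        (x.1.1, x.2, x.2, x.2)).right fun y : (List P.α × List P.α) × List P.α =>
          (y.2, y.2, y.2))
  refine h1.ex.congr ?_
  rintro ⟨n, u, u'⟩ ⟨v, v'⟩
  simp only [Presentation.Eq0, Presentation.F3, Presentation.R]
  constructor
  · rintro ⟨s1, s2, h1, h2, h3⟩
    refine ⟨P.pr n 0, P.tl n 0, ?_⟩
    have hs := P.sp n 0
    have hz := P.can_mem 0
    have hz' := P.psi_can 0
    rw [← P.pr_tl n 0] at hz hz'
    exact ⟨⟨hs, s1, s2, hz, h1, h2, by rw [hz', h3, zero_add]⟩, hs, hs, hs, hz, hz, hz,
      by rw [hz']; rfl⟩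
  · rintro ⟨w, t, ⟨-, s1, s2, -, h1, h2, h3⟩, -, -, -, -, -, -, h4⟩
    refine ⟨s1, s2, h1, h2, ?_⟩
    omega

theorem Presentation.tame_Le : Tame fun (x : ℕ × List P.α × List P.α) (y : List P.α × List P.α) =>
    code y.1 < code y.2 ∨ (code y.1 = code y.2 ∧ code x.2.1 ≤ code x.2.2) :=
  Tame.of_factor (T := Prop) (fun x => code x.2.1 ≤ code x.2.2)
    (fun t y => code y.1 < code y.2 ∨ (code y.1 = code y.2 ∧ t)) fun _ _ => Iff.rfl

theorem Presentation.tame_Pt : Tame P.Pt := by
  have h1 : Tame fun (p : ℕ × List P.α) (v : List P.α) => P.Eq0 (p.1, p.2, p.2) (v, v) :=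
    (P.tame_Eq0.left fun p : ℕ × List P.α => (p.1, p.2, p.2)).right fun v : List P.α => (v, v)
  have h2 : Tame fun (x : (ℕ × List P.α) × List P.α) (y : List P.α × List P.α) =>
      P.Eq0 (x.1.1, x.1.2, x.2) (y.1, y.2) ∧
        ¬ (code y.1 < code y.2 ∨ (code y.1 = code y.2 ∧ code x.1.2 ≤ code x.2)) :=
    ((P.tame_Eq0.left fun x : (ℕ × List P.α) × List P.α => (x.1.1, x.1.2, x.2)).right
      fun y : List P.α × List P.α => (y.1, y.2)).and
    ((P.tame_Le.left fun x : (ℕ × List P.α) × List P.α => (x.1.1, x.1.2, x.2)).right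
      fun y : List P.α × List P.α => (y.1, y.2)).not
  refine (h1.and h2.ex.not).congr ?_
  rintro ⟨n, u⟩ v
  simp only [Presentation.Eq0, Presentation.Pt]
  constructor
  · rintro ⟨x, rfl, rfl⟩
    have hs := P.sp n x
    have hx : P.pr n x ++ P.tl n x ∈ P.L := by rw [P.pr_tl]; exact P.can_mem x
    refine ⟨⟨hs, hs, hx, hx, trivial⟩, ?_⟩
    rintro ⟨u'', v'', ⟨-, hs'', -, h1, h2⟩, h3⟩
    apply h3
    rw [← hs.code_le hs'', P.pr_tl]
    refine P.can_min x h1 ?_
    rw [← h2, P.pr_tl, P.psi_can]
  · rintro ⟨⟨hs, -, hx, -, -⟩, h⟩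
    have hc : P.can (P.ψ (u ++ v)) = u ++ v := by
      refine P.eq_can hx fun z' h1 h2 => ?_
      by_contra h3
      apply h
      have hs' := sp_self n z'
      refine ⟨z'.take n, z'.drop n, ⟨hs, hs', hx, by rwa [List.take_append_drop],
        by rw [List.take_append_drop, h2]⟩, ?_⟩
      rw [← hs.code_le hs', List.take_append_drop]
      exact h3
    refine ⟨P.ψ (u ++ v), ?_, ?_⟩
    · unfold Presentation.pr
      rw [hc, hs.take]
    · unfold Presentation.tl
      rw [hc, hs.drop]

end Pool.Agent.Q201.CR
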