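import Mathlib

/-!
# Automatic presentations of `(ℤ; +)` and the compressibility rate: definitions
-/

set_option autoImplicit false

namespace Pool.Agent.Q201.CR

/-- the convolution of two strings; `none` is the padding symbol -/
def conv2 {α : Type} (u v : List α) : List (Option α × Option α) :=
  (List.range (max u.length v.length)).map fun i => (u[i]?, v[i]?)

/-- the convolution of three strings -/
def conv3 {α : Type} (u v w : List α) : List (Option α × Option α × Option α) :=
  (List.range (max u.length (max v.length w.length))).map fun i => (u[i]?, v[i]?, w[i]?)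

/-- FA-presentations of `(ℤ; +)` -/
structure Presentation where
  /-- the alphabet -/
  α : Type
  /-- it is finite -/
  fin : Finite α
  /-- the domain -/
  L : Language α
  /-- the domain is regular -/
  regL : L.IsRegular
  /-- the map to the integers (only its values on `L` matter) -/
  ψ : List α → ℤ
  /-- it is onto -/
  surj : ∀ x : ℤ, ∃ w ∈ L, ψ w = x
  /-- equality is synchronously recognisable -/
  regEq : Language.IsRegular
    ({c | ∃ u v, u ∈ L ∧ v ∈ L ∧ ψ u = ψ v ∧ c = conv2 u v} : Language (Option α × Option α))
  /-- addition is synchronously recognisable -/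
  regAdd : Language.IsRegular
    ({c | ∃ u v w, u ∈ L ∧ v ∈ L ∧ w ∈ L ∧ ψ u + ψ v = ψ w ∧ c = conv3 u v w} :
      Language (Option α × Option α × Option α))

/-- the length of a shortest normal form -/
noncomputable def Presentation.len (P : Presentation) (x : ℤ) : ℕ :=
  sInf {m | ∃ v ∈ P.L, P.ψ v = x ∧ v.length = m}

/-- the compressibility rate of `P` relative to `P₀` -/
noncomputable def rate (P P₀ : Presentation) (n : ℕ) : ℕ :=
  sSup {l | ∃ w ∈ P.L, w.length ≤ n ∧ P₀.len (P.ψ w) = l}

end Pool.Agent.Q201.CR
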