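import Pool.Agent.Q201.CR.Greedy

/-!
# The graph of clusters takes finitely many values, and it grows linearly
-/

set_option autoImplicit false

namespace Pool.Agent.Q201.CR

/-- the ball around a vertex -/
def Ball {V : Type} (E : V × V → Prop) (p : V) : ℕ → Set V
  | 0 => {p}
  | k + 1 => Ball E p k ∪ {q | ∃ p' ∈ Ball E p k, E (p', q)}

/-- linear growth -/
def Lin {V : Type} (E : V × V → Prop) (p : V) (c : ℕ) : Prop :=
  ∀ k, ∃ T : Finset V, T.card ≤ c * (k + 1) ∧ ∀ q ∈ Ball E p k, q ∈ T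

theorem Lin.mono {V : Type} {E : V × V → Prop} {p : V} {c c' : ℕ} (h : Lin E p c) (hc : c ≤ c') :
    Lin E p c' := by
  intro k
  obtain ⟨T, h1, h2⟩ := h k
  exact ⟨T, h1.trans (Nat.mul_le_mul_right _ hc), h2⟩

theorem Tame.exlt {X Y : Type} {S : ℕ → X → Y → Prop} (h : ∀ i, Tame (S i)) (K : ℕ) :
    Tame fun x y => ∃ i, i < K ∧ S i x y := by
  induction K with
  | zero =>
    exact Tame.of_factor (T := Unit) (fun _ => ()) (fun _ _ => False) fun x y => by simp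
  | succ K ih =>
    refine (ih.or (h K)).congr fun x y => ?_
    constructor
    · rintro ⟨i, hi, hs⟩
      by_cases hK : i = K
      · subst hK
        exact Or.inr hs
      · exact Or.inl ⟨i, by omega, hs⟩
    · rintro (⟨i, hi, hs⟩ | hs)
      · exact ⟨i, by omega, hs⟩
      · exact ⟨K, by omega, hs⟩

variable (P : Presentation)

/-- the edges of the graph of clusters -/
def Presentation.Ed (K₀ n : ℕ) (e : (List P.α × ℕ) × (List P.α × ℕ)) : Prop :=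
  e.1.2 < K₀ ∧ e.2.2 < K₀ ∧ ∃ x y, P.G e.1.2 n x ∧ P.G e.2.2 n y ∧ P.tl n x = e.1.1 ∧
    P.tl n y = e.2.1 ∧ P.Lk n x y

theorem Presentation.tame_Ed (K₀ : ℕ) : Tame (P.Ed K₀) := by
  have h1 : ∀ i j, Tame fun (n : ℕ) (q : List P.α × List P.α) =>
      ∃ x y, P.G i n x ∧ P.G j n y ∧ P.tl n x = q.1 ∧ P.tl n y = q.2 ∧ P.Lk n x y := by
    intro i j
    have h2 : P.TB fun n x y => P.G i n x ∧ (P.G j n y ∧ P.Lk n x y) :=
      (Presentation.tb_G i).and ((Presentation.tb_G j).conv.and Presentation.TB.Lk)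
    refine (Tame.exX h2 fun n : ℕ => {p : ℕ × List P.α × List P.α | p.1 = n}).congr ?_
    rintro n ⟨v, v'⟩
    constructor
    · rintro ⟨x, y, a1, a2, rfl, rfl, a3⟩
      exact ⟨(n, P.pr n x, P.pr n y), rfl, x, y, rfl, rfl, rfl, rfl, a1, a2, a3⟩
    · rintro ⟨⟨m, u, u'⟩, hm, x, y, -, a1, -, a2, a3, a4, a5⟩
      simp only [Set.mem_ofPred_eq] at hm
      subst hm
      exact ⟨x, y, a3, a4, a1, a2, a5⟩
  have h3 : ∀ i j, Tame fun (n : ℕ) (e : (List P.α × ℕ) × (List P.α × ℕ)) =>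
      (e.1.2 = i ∧ e.2.2 = j) ∧
        ∃ x y, P.G i n x ∧ P.G j n y ∧ P.tl n x = e.1.1 ∧ P.tl n y = e.2.1 ∧ P.Lk n x y := by
    intro i j
    have h4 : Tame fun (_ : ℕ) (e : (List P.α × ℕ) × (List P.α × ℕ)) => e.1.2 = i ∧ e.2.2 = j :=
      Tame.of_factor (T := Unit) (fun _ => ()) (fun _ e => e.1.2 = i ∧ e.2.2 = j)
        fun _ _ => Iff.rfl
    exact h4.and ((h1 i j).right fun e : (List P.α × ℕ) × (List P.α × ℕ) => (e.1.1, e.2.1))
  refine (Tame.exlt (fun i => Tame.exlt (fun j => h3 i j) K₀) K₀).congr ?_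
  rintro n ⟨⟨v, i⟩, ⟨v', j⟩⟩
  simp only [Presentation.Ed]
  constructor
  · rintro ⟨hi, hj, x, y, h⟩
    exact ⟨i, hi, j, hj, ⟨rfl, rfl⟩, x, y, h⟩
  · rintro ⟨_, hi, _, hj, ⟨rfl, rfl⟩, x, y, h⟩
    exact ⟨hi, hj, x, y, h⟩

theorem Presentation.lk_dist {n : ℕ} {r : ℤ} (hr : ∀ a ∈ P.A n, |a| ≤ r) {x y : ℤ}
    (h : P.Lk n x y) : |y - x| ≤ 5 * r := by
  obtain ⟨z, ⟨a, a1, a2⟩, z', hs, ⟨b, b1, b2⟩⟩ := h
  have e1 := abs_le.1 (hr _ a1)
  have e2 := abs_le.1 (hr _ a2)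
  have e3 := abs_le.1 (hr _ b1)
  have e4 := abs_le.1 (hr _ b2)
  rw [abs_le]
  rcases hs with hs | hs
  · have e5 := abs_le.1 (hr _ hs)
    constructor <;> omega
  · have e5 := abs_le.1 (hr _ hs)
    constructor <;> omega

/-- each graph of clusters grows linearly -/
theorem Presentation.lin (K₀ n : ℕ) (hn : (P.A n).Nonempty) {i₀ : ℕ} {g₀ : ℤ}
    (h : P.G i₀ n g₀) : ∃ c, Lin (P.Ed K₀ n) (P.tl n g₀, i₀) c := by
  classical
  obtain ⟨r, hr⟩ : ∃ r : ℕ, ∀ a ∈ P.A n, |a| ≤ (r : ℤ) := by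
    obtain ⟨r, hr⟩ := ((P.A_finite n).image fun a => a.natAbs).bddAbove
    refine ⟨r, fun a ha => ?_⟩
    have : a.natAbs ≤ r := hr ⟨a, ha, rfl⟩
    rw [Int.abs_eq_natAbs]
    exact_mod_cast this
  have key : ∀ k, ∀ q ∈ Ball (P.Ed K₀ n) (P.tl n g₀, i₀) k,
      ∃ g, P.G q.2 n g ∧ P.tl n g = q.1 ∧ |g - g₀| ≤ 5 * r * k := by
    intro k
    induction k with
    | zero =>
      rintro q hq
      have : q = (P.tl n g₀, i₀) := hq
      subst this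
      exact ⟨g₀, h, rfl, by simp⟩
    | succ k ih =>
      intro q hq
      rcases hq with hq | ⟨p', hp', -, -, x, y, a1, a2, a3, a4, a5⟩
      · obtain ⟨g, h1, h2, h3⟩ := ih q hq
        refine ⟨g, h1, h2, h3.trans ?_⟩
        push_cast
        nlinarith
      · obtain ⟨g, h1, h2, h3⟩ := ih p' hp'
        simp only at a1 a2 a3 a4
        have hgx : g = x := P.G_unique h1 a1 (h2.trans a3.symm)
        subst hgx
        refine ⟨y, a2, a4, ?_⟩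
        have h4 := P.lk_dist hr a5
        rw [abs_le] at h3 h4 ⊢
        push_cast
        constructor <;> nlinarith
  refine ⟨10 * r + 1, fun k => ?_⟩
  let lab : ℤ → ℕ := fun g => if hg : ∃ i, P.G i n g then hg.choose else 0
  refine ⟨(Finset.Icc (g₀ - 5 * r * k) (g₀ + 5 * r * k)).image fun g => (P.tl n g, lab g), ?_, ?_⟩
  · refine le_trans Finset.card_image_le ?_
    rw [Int.card_Icc]
    have : (g₀ + 5 * r * k + 1 - (g₀ - 5 * r * k)).toNat = 10 * r * k + 1 := by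
      have e : g₀ + 5 * r * k + 1 - (g₀ - 5 * r * k) = ((10 * r * k + 1 : ℕ) : ℤ) := by
        push_cast
        ring
      rw [e, Int.toNat_natCast]
    rw [this]
    nlinarith
  · intro q hq
    obtain ⟨g, h1, h2, h3⟩ := key k q hq
    refine Finset.mem_image.2 ⟨g, Finset.mem_Icc.2 ?_, ?_⟩
    · rw [abs_le] at h3
      constructor <;> linarith [h3.1, h3.2]
    · have hex : ∃ i, P.G i n g := ⟨_, h1⟩
      have hlab : lab g = hex.choose := dif_pos hex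
      have : lab g = q.2 := by
        rw [hlab]
        exact P.G_label hn hex.choose_spec h1
      rw [this, h2]

/-- uniform linear growth -/
theorem Presentation.exists_lin : ∃ n₁ K₀ c : ℕ, ∀ n, n₁ ≤ n → (P.A n).Nonempty ∧
    (∀ x, ∃ i, i < K₀ ∧ ∃ y, P.G i n y ∧ P.tl n x = P.tl n y ∧ P.Cl n x y) ∧
    ∃ i₀, i₀ < K₀ ∧ (∃ y, P.G i₀ n y ∧ P.tl n 0 = P.tl n y ∧ P.Cl n 0 y) ∧
      Lin (P.Ed K₀ n) (P.tl n 0, i₀) c := by
  classical
  obtain ⟨n₀, K₀, h⟩ := P.exists_sep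
  obtain ⟨m, hm⟩ := P.exists_mem_A 0
  have hlab : ∀ n, n₀ ≤ n → ∀ x, ∃ i, i < K₀ ∧ ∃ y, P.G i n y ∧ P.tl n x = P.tl n y ∧ P.Cl n x y :=
    fun n hn x => P.exists_label (h n hn).1 (h n hn).2 x
  have h1 : ∀ n, ∃ i, n₀ ≤ n → (i < K₀ ∧ ∃ y, P.G i n y ∧ P.tl n 0 = P.tl n y ∧ P.Cl n 0 y) := by
    intro n
    by_cases hn : n₀ ≤ n
    · obtain ⟨i, hi⟩ := hlab n hn 0
      exact ⟨i, fun _ => hi⟩
    · exact ⟨0, fun h' => absurd h' hn⟩
  choose i₀ hi₀ using h1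
  have htl : ∀ n, m ≤ n → P.tl n 0 = [] := by
    intro n hn
    have : (P.can 0).length ≤ m := hm
    exact List.drop_eq_nil_of_le (by omega)
  have hfin2 : ((fun n => (P.Ed K₀ n, (P.tl n 0, i₀ n))) '' {n | n₀ + m ≤ n}).Finite := by
    refine ((Set.Finite.prod (P.tame_Ed K₀) ((Set.finite_singleton ([] : List P.α)).prod
      (Set.finite_Iio K₀)))).subset ?_
    rintro _ ⟨n, hn, rfl⟩
    have hn' : n₀ + m ≤ n := hn
    refine ⟨⟨n, rfl⟩, ?_, ?_⟩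
    · exact htl n (by omega)
    · exact (hi₀ n (by omega)).1
  have hl : ∀ e ∈ (fun n => (P.Ed K₀ n, (P.tl n 0, i₀ n))) '' {n | n₀ + m ≤ n},
      ∃ c, Lin e.1 e.2 c := by
    rintro _ ⟨n, hn, rfl⟩
    have hn' : n₀ + m ≤ n := hn
    obtain ⟨y, a1, a2, -⟩ := (hi₀ n (by omega)).2
    obtain ⟨c, hc⟩ := P.lin K₀ n (h n (by omega)).1 a1
    refine ⟨c, ?_⟩
    simp only
    rw [a2]
    exact hc
  have h2 : ∀ e : ((List P.α × ℕ) × (List P.α × ℕ) → Prop) × (List P.α × ℕ), ∃ c,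
      e ∈ (fun n => (P.Ed K₀ n, (P.tl n 0, i₀ n))) '' {n | n₀ + m ≤ n} → Lin e.1 e.2 c := by
    intro e
    by_cases he : e ∈ (fun n => (P.Ed K₀ n, (P.tl n 0, i₀ n))) '' {n | n₀ + m ≤ n}
    · obtain ⟨c, hc⟩ := hl e he
      exact ⟨c, fun _ => hc⟩
    · exact ⟨0, fun h' => absurd h' he⟩
  choose cc hcc using h2
  obtain ⟨c, hc⟩ := (hfin2.image cc).bddAbove
  refine ⟨n₀ + m, K₀, c, fun n hn => ⟨(h n (by omega)).1, hlab n (by omega), i₀ n,
    (hi₀ n (by omega)).1, (hi₀ n (by omega)).2, ?_⟩⟩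
  have hmem : (P.Ed K₀ n, (P.tl n 0, i₀ n)) ∈
      (fun n => (P.Ed K₀ n, (P.tl n 0, i₀ n))) '' {n | n₀ + m ≤ n} := ⟨n, hn, rfl⟩
  exact (hcc _ hmem).mono (hc ⟨_, hmem, rfl⟩)

end Pool.Agent.Q201.CR
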