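import Pool.Agent.Q201.CR.Bounds

/-!
# Greedy representatives of the clusters
-/

set_option autoImplicit false

namespace Pool.Agent.Q201.CR

variable (P : Presentation)

/-- the points of least code in their cell with the property `F` -/
def Presentation.Grd (F : ℕ → ℤ → Prop) (n : ℕ) (y : ℤ) : Prop :=
  F n y ∧ ∀ z, F n z → P.tl n y = P.tl n z → code (P.can y) ≤ code (P.can z)

/-- the points which are not close to the first `i` greedy points of their cell -/
def Presentation.Far : ℕ → ℕ → ℤ → Prop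
  | 0 => fun _ _ => True
  | i + 1 => fun n x => Presentation.Far i n x ∧
      ∀ y, P.Grd (Presentation.Far i) n y → P.tl n x = P.tl n y → ¬ P.Cl n x y

/-- the `i`-th greedy point -/
def Presentation.G (i n : ℕ) (x : ℤ) : Prop := P.Grd (P.Far i) n x

variable {P}

theorem Presentation.TB.congr {Q Q' : ℕ → ℤ → ℤ → Prop} (h : P.TB Q)
    (e : ∀ n x y, Q' n x y ↔ Q n x y) : P.TB Q' := by
  have : Q' = Q := funext fun n => funext fun x => funext fun y => propext (e n x y)
  rw [this]
  exact h

theorem Presentation.TB.grd {F : ℕ → ℤ → Prop} (h : P.TB fun n x _ => F n x) :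
    P.TB fun n x _ => P.Grd F n x := by
  have h1 : P.TB fun n x y => ¬ F n y ∨ (¬ P.tl n x = P.tl n y ∨
      code (P.can x) ≤ code (P.can y)) :=
    h.conv.not.or (Presentation.TB.sameTail.not.or Presentation.TB.leCode)
  refine (h.and h1.all).congr fun n x y => ?_
  refine and_congr_right fun _ => forall_congr' fun z => ?_
  tauto

theorem Presentation.tb_far (i : ℕ) : P.TB fun n x _ => P.Far i n x := by
  induction i with
  | zero => exact Presentation.TB.top
  | succ i ih =>
    have h1 : P.TB fun n x y => ¬ P.Grd (P.Far i) n y ∨ (¬ P.tl n x = P.tl n y ∨ ¬ P.Cl n x y) :=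
      ih.grd.conv.not.or (Presentation.TB.sameTail.not.or Presentation.TB.Cl.not)
    refine (ih.and h1.all).congr fun n x y => ?_
    refine and_congr_right fun _ => forall_congr' fun z => ?_
    tauto

theorem Presentation.tb_G (i : ℕ) : P.TB fun n x _ => P.G i n x := (Presentation.tb_far i).grd

theorem Presentation.far_anti {i j n : ℕ} {x : ℤ} (hij : i ≤ j) (h : P.Far j n x) :
    P.Far i n x := by
  induction j with
  | zero =>
    have : i = 0 := by omega
    subst this
    exact h
  | succ j ih =>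
    by_cases hj : i = j + 1
    · subst hj
      exact h
    · exact ih (by omega) h.1

theorem Presentation.G_unique {i n : ℕ} {x y : ℤ} (hx : P.G i n x) (hy : P.G i n y)
    (h : P.tl n x = P.tl n y) : x = y := by
  apply P.can_inj
  apply code_inj
  exact le_antisymm (hx.2 y hy.1 h) (hy.2 x hx.1 h.symm)

theorem Presentation.exists_G {i n : ℕ} {x : ℤ} (h : P.Far i n x) :
    ∃ y, P.G i n y ∧ P.tl n y = P.tl n x := by
  obtain ⟨z, ⟨hz1, hz2⟩, hz3⟩ := (measure fun z : ℤ => code (P.can z)).wf.has_min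
    {z | P.Far i n z ∧ P.tl n z = P.tl n x} ⟨x, h, rfl⟩
  refine ⟨z, ⟨hz1, fun y hy hy' => ?_⟩, hz2⟩
  have := hz3 y ⟨hy, hy'.symm.trans hz2⟩
  exact not_lt.1 this

theorem Presentation.not_cl {i j n : ℕ} {x y : ℤ} (hij : i < j) (hx : P.G i n x)
    (hy : P.Far j n y) (h : P.tl n y = P.tl n x) : ¬ P.Cl n y x :=
  (P.far_anti (show i + 1 ≤ j from hij) hy).2 x hx h

theorem Presentation.cl_self {n : ℕ} (hn : (P.A n).Nonempty) (x : ℤ) : P.Cl n x x := by
  obtain ⟨a, ha⟩ := hn
  refine ⟨x + a, ?_, ?_⟩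
  · unfold Presentation.Ad
    have : x + a - x = a := by ring
    rwa [this]
  · unfold Presentation.Ad
    have : x + a - x = a := by ring
    rwa [this]

theorem Presentation.G_label {i j n : ℕ} {x : ℤ} (hn : (P.A n).Nonempty) (hi : P.G i n x)
    (hj : P.G j n x) : i = j := by
  rcases lt_trichotomy i j with h | h | h
  · exact absurd (P.cl_self hn x) (P.not_cl h hi hj.1 rfl)
  · exact h
  · exact absurd (P.cl_self hn x) (P.not_cl h hj hi.1 rfl)

theorem Presentation.far_lt {K₀ n : ℕ} (hn : (P.A n).Nonempty)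
    (h : ∀ v, ∀ K : Finset ℤ, (∀ x ∈ K, P.tl n x = v) →
      (∀ x ∈ K, ∀ y ∈ K, x ≠ y → ¬ P.Cl n x y) → K.card ≤ K₀) {i : ℕ} {x : ℤ}
    (hx : P.Far i n x) : i < K₀ := by
  classical
  have h1 : ∀ j, ∃ y, (j < i → P.G j n y) ∧ (i ≤ j → y = x) ∧ P.tl n y = P.tl n x := by
    intro j
    by_cases hj : j < i
    · obtain ⟨y, h1, h2⟩ := P.exists_G (P.far_anti hj.le hx)
      exact ⟨y, fun _ => h1, fun h' => absurd hj (by omega), h2⟩
    · exact ⟨x, fun h' => absurd h' hj, fun _ => rfl, rfl⟩
  choose g hg1 hg2 hg3 using h1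
  have hfar : ∀ j, j ≤ i → P.Far j n (g j) := by
    intro j hj
    by_cases hj' : j < i
    · exact (hg1 j hj').1
    · have : j = i := by omega
      subst this
      rw [hg2 j le_rfl]
      exact hx
  have hcl : ∀ j k, j < k → k ≤ i → ¬ P.Cl n (g k) (g j) := by
    intro j k hjk hki
    exact P.not_cl hjk (hg1 j (by omega)) (hfar k hki) (by rw [hg3, hg3])
  have hinj : Set.InjOn g (Finset.range (i + 1) : Set ℕ) := by
    intro j hj k hk hjk
    rw [Finset.coe_range, Set.mem_Iio] at hj hk
    rcases lt_trichotomy j k with h' | h' | h'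
    · exfalso
      apply hcl j k h' (by omega)
      rw [hjk]
      exact P.cl_self hn _
    · exact h'
    · exfalso
      apply hcl k j h' (by omega)
      rw [hjk]
      exact P.cl_self hn _
  have h2 := h (P.tl n x) ((Finset.range (i + 1)).image g) (by
    intro y hy
    obtain ⟨j, _, rfl⟩ := Finset.mem_image.1 hy
    exact hg3 j) (by
    intro y hy z hz hyz
    obtain ⟨j, hj, rfl⟩ := Finset.mem_image.1 hy
    obtain ⟨k, hk, rfl⟩ := Finset.mem_image.1 hz
    rw [Finset.mem_range] at hj hk
    rcases lt_trichotomy j k with h' | h' | h'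
    · exact fun hc => hcl j k h' (by omega) hc.symm
    · subst h'
      exact absurd rfl hyz
    · exact hcl k j h' (by omega))
  rw [Finset.card_image_of_injOn hinj, Finset.card_range] at h2
  omega

theorem Presentation.exists_label {K₀ n : ℕ} (hn : (P.A n).Nonempty)
    (h : ∀ v, ∀ K : Finset ℤ, (∀ x ∈ K, P.tl n x = v) →
      (∀ x ∈ K, ∀ y ∈ K, x ≠ y → ¬ P.Cl n x y) → K.card ≤ K₀) (x : ℤ) :
    ∃ i, i < K₀ ∧ ∃ y, P.G i n y ∧ P.tl n x = P.tl n y ∧ P.Cl n x y := by
  classical
  have hex : ∃ i, ¬ P.Far (i + 1) n x := ⟨K₀, fun h' => by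
    have := P.far_lt hn h h'
    omega⟩
  have h1 := Nat.find_spec hex
  set i := Nat.find hex with hi
  have h2 : P.Far i n x := by
    by_cases h0 : i = 0
    · rw [h0]
      trivial
    · have := Nat.find_min hex (m := i - 1) (by omega)
      rw [not_not, Nat.sub_add_cancel (by omega)] at this
      exact this
  refine ⟨i, P.far_lt hn h h2, ?_⟩
  by_contra hcon
  push Not at hcon
  exact h1 ⟨h2, fun y hy hxy => hcon y hy hxy⟩

end Pool.Agent.Q201.CR
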