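import Pool.Agent.Q201.CR.Graph

/-!
# The numbers with a string of length `n` are at most exponential in `n`
-/

set_option autoImplicit false

namespace Pool.Agent.Q201.CR

variable (P : Presentation)

/-- `x` lies in a cluster at distance at most `k` -/
def Presentation.Inv (K₀ n : ℕ) (p : List P.α × ℕ) (k : ℕ) (x : ℤ) : Prop :=
  ∃ q ∈ Ball (P.Ed K₀ n) p k, ∃ y, q.2 < K₀ ∧ P.G q.2 n y ∧ P.tl n y = q.1 ∧ P.tl n x = q.1 ∧
    P.Cl n x y

variable {P}

theorem Presentation.Inv.mono {K₀ n : ℕ} {p : List P.α × ℕ} {k k' : ℕ} {x : ℤ}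
    (h : P.Inv K₀ n p k x) (hk : k ≤ k') : P.Inv K₀ n p k' x := by
  induction k' with
  | zero =>
    have : k = 0 := by omega
    subst this
    exact h
  | succ k' ih =>
    by_cases hk' : k = k' + 1
    · subst hk'
      exact h
    · obtain ⟨q, hq, hy⟩ := ih (by omega)
      exact ⟨q, Or.inl hq, hy⟩

theorem Presentation.Inv.step {K₀ n : ℕ} {p : List P.α × ℕ} {k : ℕ} {x x' : ℤ}
    (hlab : ∀ x, ∃ i, i < K₀ ∧ ∃ y, P.G i n y ∧ P.tl n x = P.tl n y ∧ P.Cl n x y)
    (h : P.Inv K₀ n p k x) (hs : P.St n x x') : P.Inv K₀ n p (k + 1) x' := by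
  obtain ⟨q, hq, y, h0, h1, h2, h3, h4⟩ := h
  obtain ⟨i, hi, y', h5, h6, h7⟩ := hlab x'
  refine ⟨(P.tl n x', i), Or.inr ⟨q, hq, h0, hi, y, y', h1, h5, h2, h6.symm, ?_⟩, y', hi, h5,
    h6.symm, rfl, h7⟩
  exact ⟨x, h4.symm, x', hs, h7⟩

variable (P)

/-- the main estimate -/
theorem Presentation.growth : ∃ C : ℕ, ∀ n, ∀ M ∈ P.A n, M.natAbs ≤ C * base P.α ^ n := by
  classical
  obtain ⟨n₁, K₀, c, h⟩ := P.exists_lin
  obtain ⟨m₁, hm₁⟩ := P.exists_mem_A 1
  have key : ∀ n, n₁ + m₁ ≤ n → ∀ M ∈ P.A n, M.natAbs ≤ 2 * c * base P.α ^ n := by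
    intro n hn M hM
    obtain ⟨hne, hlab, i₀, hi₀, ⟨y₀, b1, b2, b3⟩, hlin⟩ := h n (by omega)
    have hone : (1 : ℤ) ∈ P.A n := P.A_mono (by omega) hm₁
    by_cases hM0 : M.natAbs = 0
    · rw [hM0]
      exact Nat.zero_le _
    obtain ⟨k, hk⟩ : ∃ k, M.natAbs = k + 1 := ⟨M.natAbs - 1, by omega⟩
    have h0 : P.Inv K₀ n (P.tl n 0, i₀) 0 0 :=
      ⟨(P.tl n 0, i₀), rfl, y₀, hi₀, b1, b2.symm, rfl, b3⟩
    have hM1 : ∀ x : ℤ, P.St n x (x + (M.natAbs : ℤ)) := by
      intro x
      rcases Int.natAbs_eq M with h1 | h1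
      · left
        unfold Presentation.Ad
        have : x + (M.natAbs : ℤ) - x = M := by omega
        rwa [this]
      · right
        unfold Presentation.Ad
        have : x - (x + (M.natAbs : ℤ)) = M := by omega
        rwa [this]
    have h1 : ∀ x : ℤ, P.St n x (x + 1) := by
      intro x
      left
      unfold Presentation.Ad
      have : x + 1 - x = 1 := by ring
      rwa [this]
    have h2 : ∀ b : ℕ, P.Inv K₀ n (P.tl n 0, i₀) b (b * (M.natAbs : ℤ)) := by
      intro b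
      induction b with
      | zero => simpa using h0
      | succ b ih =>
        have := ih.step hlab (hM1 _)
        have e : (b : ℤ) * (M.natAbs : ℤ) + (M.natAbs : ℤ) = ((b + 1 : ℕ) : ℤ) * (M.natAbs : ℤ) := by
          push_cast
          ring
        rwa [e] at this
    have h3 : ∀ a b : ℕ, P.Inv K₀ n (P.tl n 0, i₀) (b + a) (b * (M.natAbs : ℤ) + a) := by
      intro a b
      induction a with
      | zero => simpa using h2 b
      | succ a ih =>
        have := ih.step hlab (h1 _)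
        have e : (b : ℤ) * (M.natAbs : ℤ) + a + 1 = b * (M.natAbs : ℤ) + ((a + 1 : ℕ) : ℤ) := by
          push_cast
          ring
        rw [e] at this
        exact this
    obtain ⟨T, hT1, hT2⟩ := hlin (2 * k)
    have h4 : (Finset.range (k + 1) ×ˢ Finset.range (k + 1)).card ≤
        (T.biUnion fun q => P.cell n q.1).card := by
      refine Finset.card_le_card_of_injOn
        (fun p : ℕ × ℕ => (p.2 : ℤ) * (M.natAbs : ℤ) + (p.1 : ℤ)) ?_ ?_
      · rintro ⟨a, b⟩ hab
        obtain ⟨ha, hb⟩ := Finset.mem_product.1 (Finset.mem_coe.1 hab)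
        rw [Finset.mem_range] at ha hb
        obtain ⟨q, hq, y, -, -, -, hy, -⟩ := (h3 a b).mono (k' := 2 * k) (by simp only at ha hb; omega)
        exact Finset.mem_coe.2 (Finset.mem_biUnion.2 ⟨q, hT2 q hq, P.mem_cell.2 hy⟩)
      · rintro ⟨a, b⟩ hab ⟨a', b'⟩ hab' heq
        obtain ⟨ha, hb⟩ := Finset.mem_product.1 (Finset.mem_coe.1 hab)
        obtain ⟨ha', hb'⟩ := Finset.mem_product.1 (Finset.mem_coe.1 hab')
        rw [Finset.mem_range] at ha hb ha' hb'
        simp only at heq ha hb ha' hb'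
        have heq' : b * (k + 1) + a = b' * (k + 1) + a' := by
          rw [hk] at heq
          exact_mod_cast heq
        have e1 : a = a' := by
          have := congrArg (· % (k + 1)) heq'
          simp only [Nat.mul_add_mod_self_right] at this
          rwa [Nat.mod_eq_of_lt ha, Nat.mod_eq_of_lt ha'] at this
        subst e1
        have e2 : b = b' := by
          have : b * (k + 1) = b' * (k + 1) := by omega
          exact Nat.eq_of_mul_eq_mul_right (Nat.succ_pos k) this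
        rw [e2]
    have h5 : (T.biUnion fun q => P.cell n q.1).card ≤ T.card * base P.α ^ n :=
      Finset.card_biUnion_le_card_mul _ _ _ fun q _ => P.card_cell n q.1
    rw [Finset.card_product, Finset.card_range] at h4
    have h6 : (k + 1) * (k + 1) ≤ (2 * c * base P.α ^ n) * (k + 1) := by
      calc (k + 1) * (k + 1) ≤ T.card * base P.α ^ n := h4.trans h5
        _ ≤ (c * (2 * k + 1)) * base P.α ^ n := Nat.mul_le_mul_right _ hT1
        _ ≤ (c * (2 * (k + 1))) * base P.α ^ n :=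
            Nat.mul_le_mul_right _ (Nat.mul_le_mul_left _ (by omega))
        _ = (2 * c * base P.α ^ n) * (k + 1) := by ring
    rw [hk]
    exact Nat.le_of_mul_le_mul_right h6 (Nat.succ_pos k)
  refine ⟨2 * c * base P.α ^ (n₁ + m₁), fun n M hM => ?_⟩
  have hb : 0 < base P.α := base_pos _
  by_cases hn : n₁ + m₁ ≤ n
  · refine (key n hn M hM).trans (Nat.mul_le_mul_right _ ?_)
    exact Nat.le_mul_of_pos_right _ (Nat.pow_pos hb)
  · refine (key (n₁ + m₁) le_rfl M (P.A_mono (by omega) hM)).trans ?_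
    exact Nat.le_mul_of_pos_right _ (Nat.pow_pos hb)

/-- shortest strings have at most logarithmic length -/
theorem Presentation.log_bound : ∃ a b : ℕ, ∀ j : ℕ, ∀ x : ℤ, -(2 : ℤ) ^ j ≤ x → x ≤ 2 ^ j →
    x ∈ P.A (a * j + b) := by
  obtain ⟨D, hD⟩ := P.exists_add
  obtain ⟨m₀, hm₀⟩ := P.exists_mem_A 0
  obtain ⟨m₁, hm₁⟩ := P.exists_mem_A 1
  obtain ⟨m₂, hm₂⟩ := P.exists_mem_A (-1)
  refine ⟨2 * D, m₀ + m₁ + m₂, fun j => ?_⟩
  induction j with
  | zero =>
    intro x h1 h2
    have : x = 0 ∨ x = 1 ∨ x = -1 := by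
      rw [pow_zero] at h1 h2
      omega
    rcases this with rfl | rfl | rfl
    · exact P.A_mono (by omega) hm₀
    · exact P.A_mono (by omega) hm₁
    · exact P.A_mono (by omega) hm₂
  | succ j ih =>
    intro x h1 h2
    rw [pow_succ] at h1 h2
    have h3 := ih (x / 2) (by omega) (by omega)
    have h4 := hD _ _ _ h3 h3
    have h5 : x % 2 ∈ P.A (2 * D * j + (m₀ + m₁ + m₂) + D) := by
      rcases Int.emod_two_eq_zero_or_one x with h | h
      · rw [h]
        exact P.A_mono (by omega) hm₀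
      · rw [h]
        exact P.A_mono (by omega) hm₁
    have h6 := hD _ _ _ h4 h5
    have e1 : x / 2 + x / 2 + x % 2 = x := by omega
    have e2 : 2 * D * j + (m₀ + m₁ + m₂) + D + D = 2 * D * (j + 1) + (m₀ + m₁ + m₂) := by ring
    rwa [e1, e2] at h6

theorem Presentation.len_eq (x : ℤ) : P.len x = (P.can x).length := by
  unfold Presentation.len
  apply le_antisymm
  · exact Nat.sInf_le ⟨P.can x, P.can_mem x, P.psi_can x, rfl⟩
  · apply le_csInf
    · exact ⟨_, P.can x, P.can_mem x, P.psi_can x, rfl⟩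
    · rintro m ⟨v, h1, rfl, rfl⟩
      exact P.can_length h1

/-- the compressibility rate is linear -/
theorem rate_le (P P₀ : Presentation) : ∃ a b : ℕ, ∀ n, rate P P₀ n ≤ a * n + b := by
  obtain ⟨C, hC⟩ := P.growth
  obtain ⟨a, b, hab⟩ := P₀.log_bound
  refine ⟨a * base P.α, a * C + b, fun n => ?_⟩
  have key : ∀ l, (∃ w ∈ P.L, w.length ≤ n ∧ P₀.len (P.ψ w) = l) →
      l ≤ a * base P.α * n + (a * C + b) := by
    rintro l ⟨w, hw, hwn, rfl⟩
    have h1 := hC n (P.ψ w) (P.mem_A.2 ⟨w, hw, hwn, rfl⟩)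
    have h2 : C * base P.α ^ n ≤ 2 ^ (C + base P.α * n) := by
      rw [pow_add, pow_mul]
      refine Nat.mul_le_mul (Nat.lt_two_pow_self).le (Nat.pow_le_pow_left ?_ n)
      exact (Nat.lt_two_pow_self).le
    have h3 : ((P.ψ w).natAbs : ℤ) ≤ 2 ^ (C + base P.α * n) := by
      exact_mod_cast h1.trans h2
    have h4 := hab (C + base P.α * n) (P.ψ w) (by omega) (by omega)
    have h5 : (P₀.can (P.ψ w)).length ≤ a * (C + base P.α * n) + b := h4
    rw [P₀.len_eq]
    calc (P₀.can (P.ψ w)).length ≤ a * (C + base P.α * n) + b := h5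
      _ = a * base P.α * n + (a * C + b) := by ring
  unfold rate
  by_cases hne : {l | ∃ w ∈ P.L, w.length ≤ n ∧ P₀.len (P.ψ w) = l}.Nonempty
  · exact csSup_le hne key
  · rw [Set.not_nonempty_iff_eq_empty.1 hne]
    simp

end Pool.Agent.Q201.CR
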