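import Pool.Agent.Q201.CR.Code

/-!
# Families of binary relations on the integers with finitely many sections
-/

set_option autoImplicit false

namespace Pool.Agent.Q201.CR

variable (P : Presentation)

/-- the sections of a family of binary relations -/
def Presentation.Sec (Q : ℕ → ℤ → ℤ → Prop) (p : ℕ × List P.α × List P.α)
    (q : List P.α × List P.α) : Prop :=
  ∃ x y, P.pr p.1 x = p.2.1 ∧ P.tl p.1 x = q.1 ∧ P.pr p.1 y = p.2.2 ∧ P.tl p.1 y = q.2 ∧ Q p.1 x y

/-- tame families of binary relations -/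
def Presentation.TB (Q : ℕ → ℤ → ℤ → Prop) : Prop := Tame (P.Sec Q)

variable {P}

/-- a family is tame when its sections are -/
theorem Presentation.TB.of {Q : ℕ → ℤ → ℤ → Prop}
    {S : ℕ × List P.α × List P.α → List P.α × List P.α → Prop} (hS : Tame S)
    (h : ∀ n x y, Q n x y ↔ S (n, P.pr n x, P.pr n y) (P.tl n x, P.tl n y)) : P.TB Q := by
  have h1 : Tame fun (p : ℕ × List P.α × List P.α) (q : List P.α × List P.α) =>
      P.Pt (p.1, p.2.1) q.1 :=
    (P.tame_Pt.left fun p : ℕ × List P.α × List P.α => (p.1, p.2.1)).right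
      fun q : List P.α × List P.α => q.1
  have h2 : Tame fun (p : ℕ × List P.α × List P.α) (q : List P.α × List P.α) =>
      P.Pt (p.1, p.2.2) q.2 :=
    (P.tame_Pt.left fun p : ℕ × List P.α × List P.α => (p.1, p.2.2)).right
      fun q : List P.α × List P.α => q.2
  refine ((h1.and h2).and hS).congr ?_
  rintro ⟨n, u, u'⟩ ⟨v, v'⟩
  constructor
  · rintro ⟨x, y, e1, e2, e3, e4, hq⟩
    simp only at e1 e2 e3 e4 hq
    subst e1 e2 e3 e4
    exact ⟨⟨⟨x, rfl, rfl⟩, ⟨y, rfl, rfl⟩⟩, (h n x y).1 hq⟩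
  · rintro ⟨⟨⟨x, e1, e2⟩, ⟨y, e3, e4⟩⟩, hs⟩
    simp only at e1 e2 e3 e4
    subst e1 e2 e3 e4
    exact ⟨x, y, rfl, rfl, rfl, rfl, (h n x y).2 hs⟩

theorem Presentation.TB.sec {Q : ℕ → ℤ → ℤ → Prop} (n : ℕ) (x y : ℤ) :
    P.Sec Q (n, P.pr n x, P.pr n y) (P.tl n x, P.tl n y) ↔ Q n x y := by
  constructor
  · rintro ⟨x', y', h1, h2, h3, h4, h5⟩
    rw [← P.pt_inj h1 h2, ← P.pt_inj h3 h4]
    exact h5
  · intro h
    exact ⟨x, y, rfl, rfl, rfl, rfl, h⟩

theorem Presentation.TB.and {Q Q' : ℕ → ℤ → ℤ → Prop} (h : P.TB Q) (h' : P.TB Q') :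
    P.TB fun n x y => Q n x y ∧ Q' n x y :=
  Presentation.TB.of (Tame.and h h') fun n x y => by rw [Presentation.TB.sec, Presentation.TB.sec]

theorem Presentation.TB.or {Q Q' : ℕ → ℤ → ℤ → Prop} (h : P.TB Q) (h' : P.TB Q') :
    P.TB fun n x y => Q n x y ∨ Q' n x y :=
  Presentation.TB.of (Tame.or h h') fun n x y => by rw [Presentation.TB.sec, Presentation.TB.sec]

theorem Presentation.TB.not {Q : ℕ → ℤ → ℤ → Prop} (h : P.TB Q) : P.TB fun n x y => ¬ Q n x y :=
  Presentation.TB.of (Tame.not h) fun n x y => by rw [Presentation.TB.sec]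

theorem Presentation.TB.conv {Q : ℕ → ℤ → ℤ → Prop} (h : P.TB Q) : P.TB fun n x y => Q n y x :=
  Presentation.TB.of ((Tame.left h fun p : ℕ × List P.α × List P.α => (p.1, p.2.2, p.2.1)).right
    fun q : List P.α × List P.α => (q.2, q.1)) fun n x y => by
      exact (Presentation.TB.sec n y x).symm

theorem Presentation.TB.comp {Q Q' : ℕ → ℤ → ℤ → Prop} (h : P.TB Q) (h' : P.TB Q') :
    P.TB fun n x y => ∃ z, Q n x z ∧ Q' n z y := by
  have h1 : Tame fun (p : (ℕ × List P.α × List P.α) × List P.α)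
      (q : (List P.α × List P.α) × List P.α) =>
        P.Sec Q (p.1.1, p.1.2.1, p.2) (q.1.1, q.2) ∧
          P.Sec Q' (p.1.1, p.2, p.1.2.2) (q.2, q.1.2) :=
    ((Tame.left h fun p : (ℕ × List P.α × List P.α) × List P.α =>
      (p.1.1, p.1.2.1, p.2)).right fun q : (List P.α × List P.α) × List P.α =>
        (q.1.1, q.2)).and
    ((Tame.left h' fun p : (ℕ × List P.α × List P.α) × List P.α =>
      (p.1.1, p.2, p.1.2.2)).right fun q : (List P.α × List P.α) × List P.α =>
        (q.2, q.1.2))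
  refine Presentation.TB.of h1.ex fun n x y => ?_
  constructor
  · rintro ⟨z, hz, hz'⟩
    exact ⟨P.pr n z, P.tl n z, (Presentation.TB.sec n x z).2 hz, (Presentation.TB.sec n z y).2 hz'⟩
  · rintro ⟨u, v, ⟨x', z, a1, a2, a3, a4, a5⟩, ⟨z', y', b1, b2, b3, b4, b5⟩⟩
    simp only at a1 a2 a3 a4 a5 b1 b2 b3 b4 b5
    have e1 := P.pt_inj a1 a2
    have e2 := P.pt_inj (a3.trans b1.symm) (a4.trans b2.symm)
    have e3 := P.pt_inj b3 b4
    subst e1 e2 e3
    exact ⟨z, a5, b5⟩

theorem Presentation.TB.top : P.TB fun _ _ _ => True :=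
  Presentation.TB.of (Tame.of_factor (T := Unit) (fun _ => ()) (fun _ _ => True) fun _ _ => Iff.rfl)
    fun _ _ _ => Iff.rfl

/-- an existential quantifier -/
theorem Presentation.TB.ex {Q : ℕ → ℤ → ℤ → Prop} (h : P.TB Q) : P.TB fun n x _ => ∃ z, Q n x z := by
  have := h.comp Presentation.TB.top
  simpa using this

/-- a universal quantifier -/
theorem Presentation.TB.all {Q : ℕ → ℤ → ℤ → Prop} (h : P.TB Q) : P.TB fun n x _ => ∀ z, Q n x z := by
  have := h.not.ex.not
  simpa using this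

theorem Presentation.TB.sameTail : P.TB fun n x y => P.tl n x = P.tl n y :=
  Presentation.TB.of (Tame.of_factor (T := Unit) (fun _ => ()) (fun _ q => q.1 = q.2) fun _ _ => Iff.rfl)
    fun _ _ _ => Iff.rfl

theorem Presentation.TB.leCode : P.TB fun _ x y => code (P.can x) ≤ code (P.can y) :=
  Presentation.TB.of P.tame_Le fun n x y => by
    have := (P.sp n x).code_le (P.sp n y)
    rw [P.pr_tl, P.pr_tl] at this
    exact this

variable (P)

/-- `y - x` has a short string -/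
def Presentation.Ad (n : ℕ) (x y : ℤ) : Prop := y - x ∈ P.A n

/-- the sections of the relation `x + ψ w = y` -/
def Presentation.W (p : ℕ × List P.α × List P.α × List P.α) (q : List P.α × List P.α) : Prop :=
  P.Pt (p.1, p.2.2.1) q.1 ∧ P.Pt (p.1, p.2.2.2) q.2 ∧ P.F3 p ([], q.1, q.2)

theorem Presentation.tame_W : Tame P.W := by
  have h1 : Tame fun (p : ℕ × List P.α × List P.α × List P.α) (q : List P.α × List P.α) =>
      P.Pt (p.1, p.2.2.1) q.1 :=
    (P.tame_Pt.left fun p : ℕ × List P.α × List P.α × List P.α => (p.1, p.2.2.1)).right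
      fun q : List P.α × List P.α => q.1
  have h2 : Tame fun (p : ℕ × List P.α × List P.α × List P.α) (q : List P.α × List P.α) =>
      P.Pt (p.1, p.2.2.2) q.2 :=
    (P.tame_Pt.left fun p : ℕ × List P.α × List P.α × List P.α => (p.1, p.2.2.2)).right
      fun q : List P.α × List P.α => q.2
  exact h1.and (h2.and (P.tame_F3.right fun q : List P.α × List P.α => ([], q.1, q.2)))

theorem Presentation.Ad_iff {n : ℕ} {x y : ℤ} : P.Ad n x y ↔
    ∃ w, P.W (n, w, P.pr n x, P.pr n y) (P.tl n x, P.tl n y) := by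
  unfold Presentation.Ad
  rw [P.mem_A]
  constructor
  · rintro ⟨w, h1, h2, h3⟩
    refine ⟨w, ⟨x, rfl, rfl⟩, ⟨y, rfl, rfl⟩, Or.inr ⟨h2, rfl⟩, P.sp n x, P.sp n y, ?_⟩
    simp only [Presentation.R, List.append_nil, P.pr_tl]
    exact ⟨h1, P.can_mem x, P.can_mem y, by rw [P.psi_can, P.psi_can, h3]; ring⟩
  · rintro ⟨w, -, -, h1, -, -, h2⟩
    simp only [Presentation.R, List.append_nil, P.pr_tl] at h1 h2
    refine ⟨w, h2.1, ?_, ?_⟩
    · exact h1.le
    · have := h2.2.2.2
      rw [P.psi_can, P.psi_can] at this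
      omega

variable {P}

theorem Presentation.TB.Ad : P.TB P.Ad := by
  have h1 : Tame fun (p : (ℕ × List P.α × List P.α) × List P.α)
      (q : (List P.α × List P.α) × Unit) => P.W (p.1.1, p.2, p.1.2.1, p.1.2.2) q.1 :=
    (P.tame_W.left fun p : (ℕ × List P.α × List P.α) × List P.α =>
      (p.1.1, p.2, p.1.2.1, p.1.2.2)).right fun q : (List P.α × List P.α) × Unit => q.1
  refine Presentation.TB.of h1.ex fun n x y => ?_
  rw [P.Ad_iff]
  constructor
  · rintro ⟨w, hw⟩
    exact ⟨w, (), hw⟩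
  · rintro ⟨w, _, hw⟩
    exact ⟨w, hw⟩

variable (P)

/-- `x` and `y` are close at scale `n` -/
def Presentation.Cl (n : ℕ) (x y : ℤ) : Prop := ∃ z, P.Ad n x z ∧ P.Ad n y z

/-- one step, forwards or backwards -/
def Presentation.St (n : ℕ) (x y : ℤ) : Prop := P.Ad n x y ∨ P.Ad n y x

/-- the distance between representatives of adjacent clusters -/
def Presentation.Lk (n : ℕ) (x y : ℤ) : Prop :=
  ∃ z, P.Cl n x z ∧ ∃ z', P.St n z z' ∧ P.Cl n z' y

variable {P}

theorem Presentation.TB.Cl : P.TB P.Cl := Presentation.TB.Ad.comp Presentation.TB.Ad.conv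

theorem Presentation.TB.St : P.TB P.St := Presentation.TB.Ad.or Presentation.TB.Ad.conv

theorem Presentation.TB.Lk : P.TB P.Lk := Presentation.TB.Cl.comp (Presentation.TB.St.comp Presentation.TB.Cl)

theorem Presentation.Cl.symm {n : ℕ} {x y : ℤ} (h : P.Cl n x y) : P.Cl n y x := by
  obtain ⟨z, h1, h2⟩ := h
  exact ⟨z, h2, h1⟩

end Pool.Agent.Q201.CR
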