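import Pool.Agent.Q201.CR.Defs

/-!
# Families of relations with finitely many sections
-/

set_option autoImplicit false

namespace Pool.Agent.Q201.CR

/-- finitely many sections -/
def Tame {X Y : Type} (S : X → Y → Prop) : Prop := (Set.range S).Finite

theorem Tame.of_factor {X Y T : Type} [Finite T] {S : X → Y → Prop} (t : X → T)
    (S' : T → Y → Prop) (h : ∀ x y, S x y ↔ S' (t x) y) : Tame S := by
  refine (Set.finite_range S').subset ?_
  rintro _ ⟨x, rfl⟩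
  exact ⟨t x, funext fun y => propext (h x y).symm⟩

theorem Tame.map {X Y Y' : Type} {S : X → Y → Prop} (h : Tame S)
    (F : (Y → Prop) → (Y' → Prop)) : Tame fun x => F (S x) := by
  refine (h.image F).subset ?_
  rintro _ ⟨x, rfl⟩
  exact ⟨S x, ⟨x, rfl⟩, rfl⟩

theorem Tame.map₂ {X Y₁ Y₂ Y' : Type} {S₁ : X → Y₁ → Prop} {S₂ : X → Y₂ → Prop} (h₁ : Tame S₁)
    (h₂ : Tame S₂) (F : (Y₁ → Prop) → (Y₂ → Prop) → (Y' → Prop)) :
    Tame fun x => F (S₁ x) (S₂ x) := by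
  refine (Set.Finite.image2 F h₁ h₂).subset ?_
  rintro _ ⟨x, rfl⟩
  exact ⟨S₁ x, ⟨x, rfl⟩, S₂ x, ⟨x, rfl⟩, rfl⟩

theorem Tame.left {X X' Y : Type} {S : X → Y → Prop} (h : Tame S) (g : X' → X) :
    Tame fun x => S (g x) := by
  refine h.subset ?_
  rintro _ ⟨x, rfl⟩
  exact ⟨g x, rfl⟩

theorem Tame.right {X Y Y' : Type} {S : X → Y → Prop} (h : Tame S) (g : Y' → Y) :
    Tame fun x y => S x (g y) := h.map fun P y => P (g y)

theorem Tame.and {X Y : Type} {S₁ S₂ : X → Y → Prop} (h₁ : Tame S₁) (h₂ : Tame S₂) :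
    Tame fun x y => S₁ x y ∧ S₂ x y := h₁.map₂ h₂ fun P Q y => P y ∧ Q y

theorem Tame.or {X Y : Type} {S₁ S₂ : X → Y → Prop} (h₁ : Tame S₁) (h₂ : Tame S₂) :
    Tame fun x y => S₁ x y ∨ S₂ x y := h₁.map₂ h₂ fun P Q y => P y ∨ Q y

theorem Tame.not {X Y : Type} {S : X → Y → Prop} (h : Tame S) : Tame fun x y => ¬ S x y :=
  h.map fun P y => ¬ P y

theorem Tame.exY {X Y Z : Type} {S : X → Y × Z → Prop} (h : Tame S) :
    Tame fun x y => ∃ z, S x (y, z) := h.map fun P y => ∃ z, P (y, z)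

theorem Tame.exX {X X' Y : Type} {S : X → Y → Prop} (h : Tame S) (I : X' → Set X) :
    Tame fun x' y => ∃ x ∈ I x', S x y := by
  refine (h.finite_subsets.image fun A : Set (Y → Prop) => fun y => ∃ P ∈ A, P y).subset ?_
  rintro _ ⟨x', rfl⟩
  refine ⟨S '' I x', ?_, ?_⟩
  · rintro _ ⟨x, _, rfl⟩
    exact ⟨x, rfl⟩
  · funext y
    refine propext ⟨?_, ?_⟩
    · rintro ⟨_, ⟨x, hx, rfl⟩, h⟩
      exact ⟨x, hx, h⟩
    · rintro ⟨x, hx, h⟩
      exact ⟨_, ⟨x, hx, rfl⟩, h⟩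

theorem Tame.congr {X Y : Type} {S S' : X → Y → Prop} (h : Tame S) (e : ∀ x y, S' x y ↔ S x y) :
    Tame S' := by
  have : S' = S := funext fun x => funext fun y => propext (e x y)
  rw [this]
  exact h

/-- with one more existential quantifier on both sides -/
theorem Tame.ex {X Y X₁ Y₁ : Type} {S : X × X₁ → Y × Y₁ → Prop} (h : Tame S) :
    Tame fun (x : X) (y : Y) => ∃ x₁ y₁, S (x, x₁) (y, y₁) := by
  have h1 := h.exY.exX fun x : X => {p : X × X₁ | p.1 = x}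
  refine h1.congr fun x y => ⟨?_, ?_⟩
  · rintro ⟨x₁, y₁, h⟩
    exact ⟨(x, x₁), rfl, y₁, h⟩
  · rintro ⟨⟨_, x₁⟩, rfl, y₁, h⟩
    exact ⟨x₁, y₁, h⟩

end Pool.Agent.Q201.CR
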